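import Pool.Agent.GW.Defs

/-!
# GW-BookA: a page of a book has a frame

PLAN of `exists_frame`: `W < Q` (dimensions).  Roundness of `Q` with `A = W`, `B = U ⊔ span F (P ∩ (Q \ W))`: `Q ≤ W` is impossible, so `Q ≤ B`.  So the image of the set `P ∩ (Q \ W)` in `V ⧸ U` spans `Q.map U.mkQ`,
which has dimension `k + 1` (`U ≤ Q`).  Choose a basis of this span inside the image (`exists_linearIndependent`), index it by `Fin (k+1)`, choose preimages `z i ∈ P`, `z i ∈ Q`, `z i ∉ W`.
`exists_page`: `W` has codimension 1 in `Q`, so for `x = z 0` every `z i` is `c i • (x + f i)` with `c i ≠ 0`, `f i ∈ W` (`z i = c • x + w`, `c ≠ 0` as `z i ∉ W`, because `W ⊔ span {x} = Q`), `c 0 = 1`, `f 0 = 0`.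
`f (succ i) = (c i)⁻¹ • z (succ i) - z 0` are linearly independent modulo `U` (the `z i` are).
-/

set_option autoImplicit false

namespace Pool.Agent.GW

open Submodule Module

variable {F V : Type} [Field F] [AddCommGroup V] [Module F V] [FiniteDimensional F V]
  {P : Set V} {U W Q : Submodule F V} {k : ℕ}

private theorem BookA_finrank_map (hUQ : U ≤ Q) (hdQ : finrank F Q = finrank F U + k) :
    finrank F (Q.map U.mkQ) = k := by
  have h1 := LinearMap.finrank_range_add_finrank_ker (U.mkQ.domRestrict Q)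
  rw [LinearMap.range_domRestrict, LinearMap.ker_domRestrict, Submodule.ker_mkQ] at h1
  have h2 := (Submodule.comapSubtypeEquivOfLe hUQ).finrank_eq
  omega

theorem exists_frame (hQ : Rd P U Q) (hdQ : finrank F Q = finrank F U + (k + 1)) (hUW : U ≤ W)
    (hWQ : W ≤ Q) (hdW : finrank F W = finrank F U + k) :
    ∃ z : Fin (k + 1) → V, (∀ i, z i ∈ P ∧ z i ∈ Q ∧ z i ∉ W) ∧
      LinearIndependent F (fun i => U.mkQ (z i)) := by
  let R : Set V := {v | v ∈ P ∧ v ∈ Q ∧ v ∉ W}
  have h1 : Q ≤ U ⊔ span F R := by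
    rcases hQ.2 W (U ⊔ span F R) hUW le_sup_left (fun p hp hpQ => by
      by_cases hpW : p ∈ W
      · exact Or.inl hpW
      · exact Or.inr (le_sup_right (a := U) (subset_span ⟨hp, hpQ, hpW⟩))) with h | h
    · exfalso
      have h2 := Submodule.finrank_mono h
      omega
    · exact h
  have h2 : span F (U.mkQ '' R) = Q.map U.mkQ := by
    rw [← Submodule.map_span]
    apply le_antisymm
    · refine Submodule.map_mono (span_le.2 ?_)
      rintro v ⟨-, hv, -⟩
      exact hv
    · refine (Submodule.map_mono h1).trans ?_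
      rw [Submodule.map_sup, Submodule.mkQ_map_self, bot_sup_eq]
  have h3 : finrank F (Q.map U.mkQ) = k + 1 := BookA_finrank_map hQ.1 hdQ
  obtain ⟨b, hb, hspan, hind⟩ := exists_linearIndependent F (U.mkQ '' R)
  have hfin : b.Finite := hind.setFinite
  have hft : Fintype b := hfin.fintype
  have h4 := finrank_span_set_eq_card hind
  rw [hspan, h2, h3, Set.toFinset_card] at h4
  let e : Fin (k + 1) ≃ b := (Fintype.equivFinOfCardEq h4.symm).symm
  have h5 : ∀ i : Fin (k + 1), ∃ z ∈ R, U.mkQ z = ((e i : b) : V ⧸ U) := fun i => hb (e i).2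
  choose z hz hz' using h5
  refine ⟨z, fun i => hz i, ?_⟩
  have h6 : (fun i => U.mkQ (z i)) = (fun x : b => (x : V ⧸ U)) ∘ e := by
    funext i
    exact hz' i
  rw [h6]
  exact hind.comp e e.injective

/-- a page: elements `c i • (x + f i)` of `P` in `Q \ W`, `f 0 = 0`, `f i ∈ W` -/
structure Page (P : Set V) (U W Q : Submodule F V) (k : ℕ) (x : V) (f : Fin (k + 1) → V) :
    Prop where
  memQ : x ∈ Q
  notW : x ∉ W
  zero : f 0 = 0
  memW : ∀ i, f i ∈ W
  mem : ∀ i, ∃ c : F, c ≠ 0 ∧ c • (x + f i) ∈ P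
  ind : LinearIndependent F (fun i : Fin k => U.mkQ (f i.succ))

theorem exists_page (hQ : Rd P U Q) (hdQ : finrank F Q = finrank F U + (k + 1)) (hUW : U ≤ W)
    (hWQ : W ≤ Q) (hdW : finrank F W = finrank F U + k) :
    ∃ x : V, ∃ f : Fin (k + 1) → V, Page P U W Q k x f := by
  obtain ⟨z, hz, hind⟩ := exists_frame hQ hdQ hUW hWQ hdW
  have hsup : W ⊔ span F {z 0} = Q := by
    refine Submodule.eq_of_le_of_finrank_le (sup_le hWQ (span_le.2 ?_)) ?_
    · rintro v rfl
      exact (hz 0).2.1
    · have h1 : finrank F W < finrank F (W ⊔ span F {z 0} : Submodule F V) := by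
        apply Submodule.finrank_lt_finrank_of_lt
        refine lt_of_le_of_ne le_sup_left ?_
        intro h
        apply (hz 0).2.2
        rw [h]
        exact le_sup_right (a := W) (subset_span rfl)
      omega
  have hc : ∀ i : Fin k, ∃ c : F, c ≠ 0 ∧ c⁻¹ • z i.succ - z 0 ∈ W := by
    intro i
    have h1 : z i.succ ∈ W ⊔ span F {z 0} := by
      rw [hsup]
      exact (hz i.succ).2.1
    obtain ⟨w, hw, y, hy, hwy⟩ := Submodule.mem_sup.1 h1
    obtain ⟨c, rfl⟩ := mem_span_singleton.1 hy
    have hc0 : c ≠ 0 := by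
      rintro rfl
      apply (hz i.succ).2.2
      rw [← hwy, zero_smul, add_zero]
      exact hw
    refine ⟨c, hc0, ?_⟩
    rw [← hwy, smul_add, smul_smul, inv_mul_cancel₀ hc0, one_smul, add_sub_cancel_right]
    exact W.smul_mem _ hw
  choose c hc0 hcW using hc
  refine ⟨z 0, Fin.cons 0 (fun i => (c i)⁻¹ • z i.succ - z 0), (hz 0).2.1, (hz 0).2.2, rfl, ?_,
    ?_, ?_⟩
  · intro i
    refine Fin.cases ?_ (fun i => ?_) i
    · exact W.zero_mem
    · exact hcW i
  · intro i
    refine Fin.cases ?_ (fun i => ?_) i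
    · refine ⟨1, one_ne_zero, ?_⟩
      rw [one_smul, Fin.cons_zero, add_zero]
      exact (hz 0).1
    · refine ⟨c i, hc0 i, ?_⟩
      rw [Fin.cons_succ, add_sub_cancel, smul_smul, mul_inv_cancel₀ (hc0 i), one_smul]
      exact (hz i.succ).1
  · rw [Fintype.linearIndependent_iff]
    intro a ha i
    have h1 := Fintype.linearIndependent_iff.1 hind
      (Fin.cons (-∑ i, a i) (fun i => a i * (c i)⁻¹)) (by
        rw [Fin.sum_univ_succ]
        simp only [Fin.cons_zero, Fin.cons_succ]
        rw [← ha]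
        simp only [Fin.cons_succ, map_sub, map_smul, smul_sub, Finset.sum_sub_distrib, smul_smul,
          ← Finset.sum_smul, neg_smul]
        abel) i.succ
    rw [Fin.cons_succ] at h1
    rcases mul_eq_zero.1 h1 with h | h
    · exact h
    · exact absurd (inv_eq_zero.1 h) (hc0 i)

end Pool.Agent.GW
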