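import Pool.Agent.GW.Cnt

/-!
# GW-BookB: many pages contain independent pages with the same colour

PLAN of `exists_pages`: `color Q` takes at most `N` values on `S`, so a class `S' ⊆ S` (one colour) has more than `Nn F k` members (`Finset.exists_lt_card_fiber_of_mul_lt_card_of_maps_to`).
Greedy choice of `Q 0, Q 1, ..., Q k ∈ S'` with `x (Q i)` independent modulo `W`: given `Q 0 .. Q (t-1)`, `t ≤ k`, put `R = W ⊔ span {x (Q i) : i < t}`,
`finrank R ≤ finrank W + t ≤ finrank W + k`; the members `Q'` of `S'` with `x Q' ∈ R` satisfy `W ≤ Q' ≤ R` (`Q' = W ⊔ span {x Q'}` since `W` has codimension 1), so there are at most `Nn F k`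
of them (`card_interval`), so some `Q t ∈ S'` has `x (Q t) ∉ R`.  (Induction on `t ≤ k + 1`: there is `Q : Fin t → Submodule F V` with values in `S'` such that `fun i => W.mkQ (x (Q i))` is
linearly independent; `linearIndependent_fin_snoc` or `linearIndependent_finSnoc`.)
-/

set_option autoImplicit false

namespace Pool.Agent.GW

open Submodule Module

variable {F V : Type} [Field F] [Finite F] [AddCommGroup V] [Module F V] [FiniteDimensional F V]

theorem exists_pages {W : Submodule F V} (k : ℕ) (S : Finset (Submodule F V))
    (hS : ∀ Q ∈ S, W ≤ Q ∧ finrank F Q = finrank F W + 1) (x : Submodule F V → V)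
    (hx : ∀ Q ∈ S, x Q ∈ Q ∧ x Q ∉ W) {α : Type} [Finite α] (color : Submodule F V → α)
    (hcard : Nat.card α * Nn F k < S.card) :
    ∃ Q : Fin (k + 1) → Submodule F V, (∀ i, Q i ∈ S) ∧
      (∀ i j, color (Q i) = color (Q j)) ∧
      LinearIndependent F (fun i => W.mkQ (x (Q i))) := by
  classical
  haveI : Fintype α := Fintype.ofFinite α
  rw [Nat.card_eq_fintype_card, ← Finset.card_univ] at hcard
  obtain ⟨y, -, hy⟩ := Finset.exists_lt_card_fiber_of_mul_lt_card_of_maps_to
    (f := color) (fun a (_ : a ∈ S) => Finset.mem_univ (color a)) hcard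
  have hS' : ∀ Q ∈ S.filter (fun Q => color Q = y), Q ∈ S ∧ color Q = y := fun Q hQ =>
    Finset.mem_filter.1 hQ
  obtain ⟨S', hS'eq⟩ : ∃ S' : Finset (Submodule F V), S' = S.filter (fun Q => color Q = y) :=
    ⟨_, rfl⟩
  rw [← hS'eq] at hy hS'
  have key : ∀ t : ℕ, t ≤ k + 1 → ∃ Q : Fin t → Submodule F V, (∀ i, Q i ∈ S') ∧
      LinearIndependent F (fun i => W.mkQ (x (Q i))) := by
    intro t
    induction t with
    | zero =>
      intro _
      exact ⟨fun i => i.elim0, fun i => i.elim0, linearIndependent_empty_type⟩
    | succ t ih =>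
      intro ht
      obtain ⟨Q, hQ, hli⟩ := ih (by omega)
      have hR1 : finrank F (W ⊔ span F (Set.range fun i => x (Q i)) : Submodule F V) ≤
          finrank F W + k := by
        have h1 := Submodule.finrank_add_le_finrank_add_finrank W
          (span F (Set.range fun i => x (Q i)))
        have h2 := finrank_range_le_card (R := F) (fun i => x (Q i))
        rw [Fintype.card_fin] at h2
        have h3 : Set.finrank F (Set.range fun i => x (Q i)) =
          finrank F (span F (Set.range fun i => x (Q i))) := rfl
        omega
      have hex : ∃ Q' ∈ S', x Q' ∉ W ⊔ span F (Set.range fun i => x (Q i)) := by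
        by_contra hcon
        push Not at hcon
        have h1 := card_interval (k := k) (le_sup_left :
          W ≤ W ⊔ span F (Set.range fun i => x (Q i))) hR1 S' (fun Q' hQ' => by
            have hQS := (hS' Q' hQ').1
            obtain ⟨hWQ, hfr⟩ := hS Q' hQS
            obtain ⟨hxQ, hxW⟩ := hx Q' hQS
            refine ⟨hWQ, ?_⟩
            have h2 : W ⊔ span F {x Q'} = Q' := by
              refine Submodule.eq_of_le_of_finrank_le (sup_le hWQ ?_) ?_
              · rw [span_singleton_le_iff_mem]
                exact hxQ
              · rw [hfr]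
                refine Submodule.finrank_lt_finrank_of_lt (lt_of_le_of_ne le_sup_left ?_)
                intro h3
                apply hxW
                rw [h3]
                exact (le_sup_right : span F {x Q'} ≤ _) (mem_span_singleton_self _)
            rw [← h2]
            refine sup_le le_sup_left ?_
            rw [span_singleton_le_iff_mem]
            exact hcon Q' hQ')
        omega
      obtain ⟨Q', hQ', hxQ'⟩ := hex
      refine ⟨Fin.snoc (α := fun _ => Submodule F V) Q Q', ?_, ?_⟩
      · intro i
        refine Fin.lastCases ?_ (fun j => ?_) i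
        · rw [Fin.snoc_last]
          exact hQ'
        · rw [Fin.snoc_castSucc]
          exact hQ j
      · have h1 : (fun i => W.mkQ (x ((Fin.snoc (α := fun _ => Submodule F V) Q Q') i))) =
            Fin.snoc (α := fun _ => V ⧸ W) (fun i => W.mkQ (x (Q i))) (W.mkQ (x Q')) := by
          funext i
          refine Fin.lastCases ?_ (fun j => ?_) i
          · rw [Fin.snoc_last, Fin.snoc_last]
          · rw [Fin.snoc_castSucc, Fin.snoc_castSucc]
        rw [h1, linearIndependent_finSnoc]
        refine ⟨hli, fun h2 => hxQ' ?_⟩
        rw [← Submodule.comap_map_mkQ, Submodule.mem_comap, Submodule.map_span, ← Set.range_comp]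
        exact h2
  obtain ⟨Q, hQ, hli⟩ := key (k + 1) le_rfl
  refine ⟨Q, fun i => (hS' _ (hQ i)).1, fun i j => ?_, hli⟩
  rw [(hS' _ (hQ i)).2, (hS' _ (hQ j)).2]

end Pool.Agent.GW
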