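import Pool.Agent.GW.BookA
import Pool.Agent.GW.BookB

/-!
# GW-BookC: independent pages with equal frames give the minor `M(K_{k+1})`

Indices: `k = m + 1`?  We produce `HasK F P k` (`M(K_{k+1})`) from `k + 1` pages over a flat of relative dimension `k`.

PLAN of `pages_hasK`: pages `Q b` with vectors `x b` and frames `f b : Fin (k+1) → V`, `f b i - f 0 i ∈ U`.  For every `b` choose `c b` with `c b • (x b + f b b) ∈ P` and let `y b = x b + f b b`;
`U' = U ⊔ span F (range y)`.  `Fl P U'`: `y b` is a multiple of an element of `P`.  Put `g i = f 0 i` (`g 0 = 0`).  `HasK` with `U'` and the vectors `g (succ i)`: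
(1) independent modulo `U'`: `U' ⊓ W = U` (if `u + ∑ a_b y_b ∈ W` then `∑ a_b x_b ∈ W` so all `a_b = 0`), so a combination of the `g (succ i)` (in `W`) lying in `U'` lies in `U`, contradiction to `ind`.
(2) `p` for `f a - f b` (`a ≠ b` in `Fin (k+1)`): in page `b` the element `c • (x b + f b a) ∈ P` is `c • ((f b a - f b b) + y b)`, so it is congruent to `c • (g a - g b)` modulo `U'`.  For the vectors `g (succ a)` use the
page `b = 0` (`g 0 = 0`), for the differences `g (succ a) - g (succ b)` the page `succ b`.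
`book`: `x`, `f` by `exists_page` for every member `Q` of `S` (choice), `color Q = fun i => U.mkQ (f_Q i)` in `α = Fin (k+1) → V ⧸ U`... this type is too large: the values are in `W.map U.mkQ`, so take
`α = Fin (k+1) → (W.map U.mkQ)`, `Nat.card α = (q ^ k) ^ (k+1)`.
-/

set_option autoImplicit false

namespace Pool.Agent.GW

open Submodule Module

variable {F V : Type} [Field F] [Finite F] [AddCommGroup V] [Module F V] [FiniteDimensional F V]
  {P : Set V} {U W : Submodule F V} {k : ℕ}

omit [Finite F] in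
theorem pages_hasK (hU : Fl P U) (hUW : U ≤ W) (x : Fin (k + 1) → V)
    (f : Fin (k + 1) → Fin (k + 1) → V) (Q : Fin (k + 1) → Submodule F V)
    (hp : ∀ b, Page P U W (Q b) k (x b) (f b)) (hf : ∀ b i, f b i - f 0 i ∈ U)
    (hx : LinearIndependent F (fun b => W.mkQ (x b))) : HasK F P k := by
  let y : Fin (k + 1) → V := fun b => x b + f b b
  let U' : Submodule F V := U ⊔ span F (Set.range y)
  have hUU' : U ≤ U' := le_sup_left
  have hy : ∀ b, y b ∈ U' := fun b => (le_sup_right : span F (Set.range y) ≤ U') (subset_span ⟨b, rfl⟩)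
  have hfl : Fl P U' := by
    refine sup_le (hU.trans (span_mono (Set.inter_subset_inter_right _ hUU'))) (span_le.2 ?_)
    rintro _ ⟨b, rfl⟩
    obtain ⟨c, hc, hcP⟩ := (hp b).mem b
    have h1 : c • y b ∈ span F (P ∩ (U' : Set V)) := subset_span ⟨hcP, U'.smul_mem c (hy b)⟩
    exact ((span F (P ∩ (U' : Set V))).smul_mem_iff hc).1 h1
  have hinf : ∀ v, v ∈ U' → v ∈ W → v ∈ U := by
    intro v hv hvW
    obtain ⟨u, hu, w, hw, rfl⟩ := Submodule.mem_sup.1 hv
    obtain ⟨a, rfl⟩ := (Submodule.mem_span_range_iff_exists_fun F).1 hw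
    have h1 : ∑ b, a b • W.mkQ (x b) = 0 := by
      have h2 : u + ∑ b, a b • y b - u - ∑ b, a b • f b b ∈ W :=
        W.sub_mem (W.sub_mem hvW (hUW hu)) (W.sum_mem fun b _ => W.smul_mem _ ((hp b).memW b))
      have h3 : u + ∑ b, a b • y b - u - ∑ b, a b • f b b = ∑ b, a b • x b := by
        have h4 : ∑ b, a b • y b = ∑ b, a b • x b + ∑ b, a b • f b b := by
          rw [← Finset.sum_add_distrib]
          refine Finset.sum_congr rfl fun b _ => ?_
          rw [← smul_add]
        rw [h4]
        abel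
      rw [h3] at h2
      have h5 : W.mkQ (∑ b, a b • x b) = 0 := (Submodule.Quotient.mk_eq_zero W).2 h2
      rw [map_sum] at h5
      simpa only [map_smul] using h5
    have h2 := Fintype.linearIndependent_iff.1 hx a h1
    have h3 : ∑ b, a b • y b = 0 := Finset.sum_eq_zero fun b _ => by rw [h2 b, zero_smul]
    rw [h3, add_zero]
    exact hu
  have hcong : ∀ a b : Fin (k + 1), ∃ p ∈ P, ∃ c : F, c ≠ 0 ∧ p - c • (f 0 a - f 0 b) ∈ U' := by
    intro a b
    obtain ⟨c, hc, hcP⟩ := (hp b).mem a
    refine ⟨_, hcP, c, hc, ?_⟩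
    have h1 : c • (x b + f b a) - c • (f 0 a - f 0 b) =
        c • (y b + (f b a - f 0 a) - (f b b - f 0 b)) := by
      rw [← smul_sub]
      congr 1
      change x b + f b a - (f 0 a - f 0 b) = x b + f b b + (f b a - f 0 a) - (f b b - f 0 b)
      abel
    rw [h1]
    exact U'.smul_mem c (U'.sub_mem (U'.add_mem (hy b) (hUU' (hf b a))) (hUU' (hf b b)))
  refine ⟨U', hfl, fun a => f 0 a.succ, ?_, fun a => ?_, fun a b _ => hcong _ _⟩
  · rw [Fintype.linearIndependent_iff]
    intro c hc
    have h1 : U'.mkQ (∑ a : Fin k, c a • f 0 a.succ) = 0 := by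
      rw [map_sum]
      simpa only [map_smul] using hc
    have h2 : ∑ a : Fin k, c a • f 0 a.succ ∈ U' := (Submodule.Quotient.mk_eq_zero U').1 h1
    have h3 : ∑ a : Fin k, c a • f 0 a.succ ∈ U :=
      hinf _ h2 (W.sum_mem fun a _ => W.smul_mem _ ((hp 0).memW a.succ))
    have h4 : U.mkQ (∑ a : Fin k, c a • f 0 a.succ) = 0 := (Submodule.Quotient.mk_eq_zero U).2 h3
    rw [map_sum] at h4
    exact Fintype.linearIndependent_iff.1 (hp 0).ind c (by simpa only [map_smul] using h4)
  · have h1 := hcong a.succ 0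
    rw [(hp 0).zero, sub_zero] at h1
    exact h1

omit [Finite F] in
private theorem BookC_finrank_map (hUW : U ≤ W) (hdW : finrank F W = finrank F U + k) :
    finrank F (W.map U.mkQ) = k := by
  have h1 := LinearMap.finrank_range_add_finrank_ker (U.mkQ.domRestrict W)
  rw [LinearMap.range_domRestrict, LinearMap.ker_domRestrict, Submodule.ker_mkQ] at h1
  have h2 := (Submodule.comapSubtypeEquivOfLe hUW).finrank_eq
  omega

/-- bound for the number of pages -/
noncomputable def muB (F : Type) (k : ℕ) : ℕ := (Nat.card F ^ k) ^ (k + 1) * Nn F k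

theorem book (hU : Fl P U) (hUW : U ≤ W) (hdW : finrank F W = finrank F U + k)
    (S : Finset (Submodule F V))
    (hS : ∀ Q ∈ S, Rd P U Q ∧ W ≤ Q ∧ finrank F Q = finrank F U + (k + 1))
    (hcard : muB F k < S.card) : HasK F P k := by
  classical
  have hpage : ∀ Q : Submodule F V, ∃ x : V, ∃ f : Fin (k + 1) → V,
      Q ∈ S → Page P U W Q k x f := by
    intro Q
    by_cases hQ : Q ∈ S
    · obtain ⟨x, f, h⟩ := exists_page (hS Q hQ).1 (hS Q hQ).2.2 hUW (hS Q hQ).2.1 hdW
      exact ⟨x, f, fun _ => h⟩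
    · exact ⟨0, 0, fun h => absurd h hQ⟩
  choose x f hpf using hpage
  let color : Submodule F V → (Fin (k + 1) → (W.map U.mkQ : Submodule F (V ⧸ U))) := fun Q i =>
    if h : f Q i ∈ W then ⟨U.mkQ (f Q i), Submodule.mem_map_of_mem h⟩ else 0
  have hfin : Finite V := Module.finite_of_finite F
  have hfin2 : Finite (W.map U.mkQ : Submodule F (V ⧸ U)) := Module.finite_of_finite F
  have hcol : Nat.card (Fin (k + 1) → (W.map U.mkQ : Submodule F (V ⧸ U))) =
      (Nat.card F ^ k) ^ (k + 1) := by
    rw [Nat.card_fun, Nat.card_fin, Module.natCard_eq_pow_finrank (K := F),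
      BookC_finrank_map hUW hdW]
  obtain ⟨Q, hQS, hQc, hind⟩ := exists_pages (W := W) k S
    (fun Q hQ => ⟨(hS Q hQ).2.1, by rw [(hS Q hQ).2.2, hdW]; omega⟩) x
    (fun Q hQ => ⟨(hpf Q hQ).memQ, (hpf Q hQ).notW⟩) color (by rw [hcol]; exact hcard)
  refine pages_hasK hU hUW (fun b => x (Q b)) (fun b => f (Q b)) Q
    (fun b => hpf (Q b) (hQS b)) (fun b i => ?_) hind
  have h1 := congrFun (hQc b 0) i
  have h2 : f (Q b) i ∈ W := (hpf (Q b) (hQS b)).memW i
  have h3 : f (Q 0) i ∈ W := (hpf (Q 0) (hQS 0)).memW i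
  have h4 : U.mkQ (f (Q b) i) = U.mkQ (f (Q 0) i) := by
    have h5 := congrArg Subtype.val h1
    simp only [color, dif_pos h2, dif_pos h3] at h5
    exact h5
  exact (Submodule.Quotient.eq U).1 h4

end Pool.Agent.GW
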