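import Pool.Agent.GW.Defs

/-!
# GW-Cnt: number of subspaces between `U` and `Q`

PLAN of `card_interval`: `X = Q ⧸ U.comap Q.subtype` has `q ^ (finrank Q - finrank U) ≤ q ^ k` elements (`Module.natCard_eq_pow_finrank`,
`Submodule.finrank_quotient_add_finrank`, `Submodule.comapSubtypeEquivOfLe`).  The map `W ↦ {x : X | x ∈ (W.comap Q.subtype).map mkQ} : Set X` is injective on the subspaces
`U ≤ W ≤ Q` (`W.comap Q.subtype ≥ U.comap Q.subtype` is the preimage of its image; `W = (W.comap Q.subtype).map Q.subtype`).  So `S.card ≤ card (Set X) = 2 ^ card X ≤ 2 ^ (q ^ k)`.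
-/

set_option autoImplicit false

namespace Pool.Agent.GW

open Submodule Module

variable {F V : Type} [Field F] [Finite F] [AddCommGroup V] [Module F V] [FiniteDimensional F V]

/-- bound for the number of subspaces of a space of dimension `k` -/
noncomputable def Nn (F : Type) (k : ℕ) : ℕ := 2 ^ (Nat.card F ^ k)

theorem card_interval {U Q : Submodule F V} {k : ℕ} (hUQ : U ≤ Q)
    (hd : finrank F Q ≤ finrank F U + k) (S : Finset (Submodule F V))
    (hS : ∀ W ∈ S, U ≤ W ∧ W ≤ Q) : S.card ≤ Nn F k := by
  classical
  have hV : Finite V := Module.finite_of_finite F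
  have hX : Finite (Q ⧸ U.comap Q.subtype) := Module.finite_of_finite F
  letI := Fintype.ofFinite (Q ⧸ U.comap Q.subtype)
  have hfr : finrank F (Q ⧸ U.comap Q.subtype) ≤ k := by
    have h1 := Submodule.finrank_quotient_add_finrank (U.comap Q.subtype)
    have h2 := (Submodule.comapSubtypeEquivOfLe hUQ).finrank_eq
    omega
  have hcard : Fintype.card (Q ⧸ U.comap Q.subtype) ≤ Nat.card F ^ k := by
    rw [← Nat.card_eq_fintype_card, Module.natCard_eq_pow_finrank (K := F)]
    exact Nat.pow_le_pow_right Nat.card_pos hfr
  have hinj : Set.InjOn (fun W : Submodule F V =>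
      (((W.comap Q.subtype).map (U.comap Q.subtype).mkQ : Submodule F _) :
        Set (Q ⧸ U.comap Q.subtype))) S := by
    intro W hW W' hW' h
    have h1 : (W.comap Q.subtype).map (U.comap Q.subtype).mkQ =
        (W'.comap Q.subtype).map (U.comap Q.subtype).mkQ := SetLike.coe_injective h
    have h2 : ∀ W ∈ S, ((W.comap Q.subtype).map (U.comap Q.subtype).mkQ).comap
        (U.comap Q.subtype).mkQ = W.comap Q.subtype := by
      intro W hW
      rw [Submodule.comap_map_mkQ, sup_eq_right]
      exact Submodule.comap_mono (hS W hW).1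
    have h3 : W.comap Q.subtype = W'.comap Q.subtype := by
      rw [← h2 W hW, ← h2 W' hW', h1]
    have h4 : ∀ W ∈ S, (W.comap Q.subtype).map Q.subtype = W := by
      intro W hW
      rw [Submodule.map_comap_subtype, inf_eq_right]
      exact (hS W hW).2
    rw [← h4 W hW, ← h4 W' hW', h3]
  calc S.card ≤ (Finset.univ : Finset (Set (Q ⧸ U.comap Q.subtype))).card :=
        Finset.card_le_card_of_injOn _ (fun _ _ => Finset.mem_coe.2 (Finset.mem_univ _)) hinj
    _ = 2 ^ Fintype.card (Q ⧸ U.comap Q.subtype) := by
        rw [Finset.card_univ, Fintype.card_set]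
    _ ≤ Nn F k := Nat.pow_le_pow_right (by norm_num) hcard

instance finite_submodule : Finite (Submodule F V) := by
  have h1 : Finite V := Module.finite_of_finite F
  exact Finite.of_injective (fun W : Submodule F V => (W : Set V)) SetLike.coe_injective

/-- the finite set of points of the contraction `P / U` -/
noncomputable def pts (P : Set V) (U : Submodule F V) : Finset (Submodule F V) :=
  (Set.toFinite {E : Submodule F V | Pt P U E}).toFinset

theorem mem_pts {P : Set V} {U E : Submodule F V} : E ∈ pts P U ↔ Pt P U E := by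
  unfold pts
  rw [Set.Finite.mem_toFinset]
  rfl

/-- the finite set of all derived flats -/
noncomputable def ders (P : Set V) (U : Submodule F V) (k : ℕ) (T : Finset (Submodule F V)) :
    Finset (Submodule F V) :=
  (Set.toFinite {Q : Submodule F V | Der P U k T Q}).toFinset

theorem mem_ders {P : Set V} {U : Submodule F V} {k : ℕ} {T : Finset (Submodule F V)}
    {Q : Submodule F V} : Q ∈ ders P U k T ↔ Der P U k T Q := by
  unfold ders
  rw [Set.Finite.mem_toFinset]
  rfl

end Pool.Agent.GW
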