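import Mathlib

/-!
# GW-Defs: round flats and derived families (Geelen-Whittle theorem, short proof)

The matroid is the set `P` of vectors of a finite vector space `V` over a finite field `F`.
Contractions are described by a subspace `U` spanned by elements of `P` (`Fl P U`): the flats of
the contraction are the flats `W ≥ U`.
-/

set_option autoImplicit false

namespace Pool.Agent.GW

open Submodule Module

variable {F V : Type} [Field F] [AddCommGroup V] [Module F V]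

/-- `U` is a flat of the matroid of the vectors `P` -/
def Fl (P : Set V) (U : Submodule F V) : Prop := U ≤ span F (P ∩ U)

/-- points of the contraction `P / U` -/
def Pt (P : Set V) (U E : Submodule F V) : Prop := ∃ p ∈ P, p ∉ U ∧ E = U ⊔ span F {p}

/-- round flats of the contraction `P / U` -/
def Rd (P : Set V) (U W : Submodule F V) : Prop :=
  U ≤ W ∧ ∀ A B : Submodule F V, U ≤ A → U ≤ B → (∀ p ∈ P, p ∈ W → p ∈ A ∨ p ∈ B) →
    W ≤ A ∨ W ≤ B

/-- a family of round flats of relative dimension `k` -/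
def Fam (P : Set V) (U : Submodule F V) (k : ℕ) (T : Finset (Submodule F V)) : Prop :=
  ∀ W ∈ T, Rd P U W ∧ finrank F W = finrank F U + k

/-- `Q` is derived from the family `T` of flats of relative dimension `k` -/
def Der (P : Set V) (U : Submodule F V) (k : ℕ) (T : Finset (Submodule F V))
    (Q : Submodule F V) : Prop :=
  finrank F Q = finrank F U + (k + 1) ∧ ∃ G₁ ∈ T, ∃ G₂ ∈ T, G₁ ≠ G₂ ∧ G₁ ≤ Q ∧ G₂ ≤ Q ∧
    ∃ E, Pt P U E ∧ E ≤ Q ∧ ¬ E ≤ G₁ ∧ ¬ E ≤ G₂

open Classical in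
/-- the contraction of a family by a point -/
noncomputable def up (E : Submodule F V) (T : Finset (Submodule F V)) :
    Finset (Submodule F V) := (T.filter fun W => ¬ E ≤ W).image fun W => W ⊔ E

/-- all derived families are linearly bounded, in all contractions -/
def Bd (F : Type) {V : Type} [Field F] [AddCommGroup V] [Module F V] (P : Set V) (k μ : ℕ) :
    Prop :=
  ∀ U : Submodule F V, Fl P U → ∀ T S : Finset (Submodule F V), Fam P U k T →
    (∀ Q ∈ S, Der P U k T Q) → S.card ≤ μ * T.card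

/-- minor `M(K_{m+1})` -/
def HasK (F : Type) {V : Type} [Field F] [AddCommGroup V] [Module F V] (P : Set V) (m : ℕ) :
    Prop :=
  ∃ U : Submodule F V, Fl P U ∧ ∃ f : Fin m → V, LinearIndependent F (fun a => U.mkQ (f a)) ∧
    (∀ a, ∃ p ∈ P, ∃ c : F, c ≠ 0 ∧ p - c • f a ∈ U) ∧
    ∀ a b, a ≠ b → ∃ p ∈ P, ∃ c : F, c ≠ 0 ∧ p - c • (f a - f b) ∈ U

variable {P : Set V} {U E W : Submodule F V} {k : ℕ}

theorem Pt.le (h : Pt P U E) : U ≤ E := by
  obtain ⟨p, -, -, rfl⟩ := h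
  exact le_sup_left

theorem Pt.fl (hU : Fl P U) (h : Pt P U E) : Fl P E := by
  obtain ⟨p, hp, -, rfl⟩ := h
  refine sup_le (hU.trans (span_mono ?_)) (span_le.2 ?_)
  · exact Set.inter_subset_inter_right _ (fun x hx => (le_sup_left : U ≤ _) hx)
  · rintro x rfl
    exact subset_span ⟨hp, (le_sup_right : span F {x} ≤ _) (subset_span rfl)⟩

theorem Pt.finrank [FiniteDimensional F V] (h : Pt P U E) : finrank F E = finrank F U + 1 := by
  obtain ⟨p, hp, hpU, rfl⟩ := h
  have h0 : p ≠ 0 := fun h => hpU (h ▸ U.zero_mem)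
  have h1 := Submodule.finrank_sup_add_finrank_inf_eq U (span F {p})
  have h2 : U ⊓ span F {p} = ⊥ := by
    rw [eq_bot_iff]
    rintro x ⟨hx, hx'⟩
    obtain ⟨c, rfl⟩ := mem_span_singleton.1 hx'
    by_cases hc : c = 0
    · simp [hc]
    · exact absurd ((U.smul_mem_iff hc).1 hx) hpU
  rw [h2, finrank_bot, finrank_span_singleton h0] at h1
  omega

theorem Pt.not_le (h : Pt P U E) : ¬ E ≤ U := by
  obtain ⟨p, hp, hpU, rfl⟩ := h
  intro h
  exact hpU (h (le_sup_right (a := U) (subset_span rfl)))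

/-- a point is in a subspace or meets it in `U` -/
theorem Pt.finrank_sup [FiniteDimensional F V] (h : Pt P U E) (hW : U ≤ W) (hE : ¬ E ≤ W) :
    Module.finrank F (W ⊔ E : Submodule F V) = Module.finrank F W + 1 := by
  obtain ⟨p, hp, hpU, rfl⟩ := h
  have hpW : p ∉ W := by
    intro hp'
    apply hE
    refine sup_le hW (span_le.2 ?_)
    rintro x rfl
    exact hp'
  have h1 : W ⊔ (U ⊔ span F {p}) = W ⊔ span F {p} := by
    rw [← sup_assoc, sup_eq_left.2 hW]
  rw [h1]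
  exact Pt.finrank (P := P) ⟨p, hp, hpW, rfl⟩

/-- generation by a point and a flat -/
theorem Pt.sup_eq [FiniteDimensional F V] (h : Pt P U E) (hW : U ≤ W) (hE : ¬ E ≤ W)
    {Q : Submodule F V} (hWQ : W ≤ Q) (hEQ : E ≤ Q)
    (hd : Module.finrank F Q = Module.finrank F W + 1) : W ⊔ E = Q :=
  Submodule.eq_of_le_of_finrank_eq (sup_le hWQ hEQ) ((h.finrank_sup hW hE).trans hd.symm)

theorem sup_eq_of_ne [FiniteDimensional F V] {G₁ G₂ Q : Submodule F V} (hne : G₁ ≠ G₂)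
    (h1 : G₁ ≤ Q) (h2 : G₂ ≤ Q) {d : ℕ} (hd1 : finrank F G₁ = d) (hd2 : finrank F G₂ = d)
    (hd : finrank F Q = d + 1) : G₁ ⊔ G₂ = Q := by
  refine Submodule.eq_of_le_of_finrank_le (sup_le h1 h2) ?_
  have h3 : finrank F G₁ < finrank F (G₁ ⊔ G₂ : Submodule F V) := by
    apply Submodule.finrank_lt_finrank_of_lt
    refine lt_of_le_of_ne le_sup_left ?_
    intro h
    apply hne
    have h4 : G₂ ≤ G₁ := by
      rw [h]
      exact le_sup_right
    exact (Submodule.eq_of_le_of_finrank_eq h4 (hd2.trans hd1.symm)).symm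
  omega

/-- derived flats are round -/
theorem der_fam [FiniteDimensional F V] {T S : Finset (Submodule F V)} (hT : Fam P U k T)
    (hS : ∀ Q ∈ S, Der P U k T Q) : Fam P U (k + 1) S := by
  intro Q hQ
  obtain ⟨hd, G₁, hG₁, G₂, hG₂, hne, h1, h2, E, hE, hEQ, hE1, hE2⟩ := hS Q hQ
  obtain ⟨⟨hU1, hr1⟩, hd1⟩ := hT G₁ hG₁
  obtain ⟨⟨hU2, hr2⟩, hd2⟩ := hT G₂ hG₂
  refine ⟨⟨hU1.trans h1, fun A B hA hB hP => ?_⟩, hd⟩
  have hsup : G₁ ⊔ G₂ = Q := sup_eq_of_ne hne h1 h2 hd1 hd2 (by omega)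
  have hs1 : G₁ ⊔ E = Q := hE.sup_eq hU1 hE1 h1 hEQ (by omega)
  have hs2 : G₂ ⊔ E = Q := hE.sup_eq hU2 hE2 h2 hEQ (by omega)
  have hEAB : E ≤ A ∨ E ≤ B := by
    obtain ⟨p, hp, hpU, rfl⟩ := hE
    have hpQ : p ∈ Q := hEQ (le_sup_right (a := U) (subset_span rfl))
    rcases hP p hp hpQ with h | h
    · left
      refine sup_le hA (span_le.2 ?_)
      rintro x rfl
      exact h
    · right
      refine sup_le hB (span_le.2 ?_)
      rintro x rfl
      exact h
  rcases hr1 A B hA hB (fun p hp hpG => hP p hp (h1 hpG)) with a1 | b1 <;>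
  rcases hr2 A B hA hB (fun p hp hpG => hP p hp (h2 hpG)) with a2 | b2
  · left; rw [← hsup]; exact sup_le a1 a2
  · rcases hEAB with h | h
    · left; rw [← hs1]; exact sup_le a1 h
    · right; rw [← hs2]; exact sup_le b2 h
  · rcases hEAB with h | h
    · left; rw [← hs2]; exact sup_le a2 h
    · right; rw [← hs1]; exact sup_le b1 h
  · right; rw [← hsup]; exact sup_le b1 b2

theorem mem_up {T : Finset (Submodule F V)} {W' : Submodule F V} :
    W' ∈ up E T ↔ ∃ W ∈ T, ¬ E ≤ W ∧ W ⊔ E = W' := by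
  classical
  unfold up
  simp only [Finset.mem_image, Finset.mem_filter]
  constructor
  · rintro ⟨W, ⟨h1, h2⟩, h3⟩
    exact ⟨W, h1, h2, h3⟩
  · rintro ⟨W, h1, h2, h3⟩
    exact ⟨W, ⟨h1, h2⟩, h3⟩

/-- contraction of a family of round flats -/
theorem fam_up [FiniteDimensional F V] {T : Finset (Submodule F V)} (hT : Fam P U k T)
    (hE : Pt P U E) : Fam P E k (up E T) := by
  intro W' hW'
  obtain ⟨W, hW, hEW, rfl⟩ := mem_up.1 hW'
  obtain ⟨⟨hU, hr⟩, hd⟩ := hT W hW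
  refine ⟨⟨le_sup_right, fun A B hA hB hP => ?_⟩, ?_⟩
  · rcases hr A B (hE.le.trans hA) (hE.le.trans hB)
      (fun p hp hpW => hP p hp ((le_sup_left : W ≤ _) hpW)) with h | h
    · left; exact sup_le h hA
    · right; exact sup_le h hB
  · rw [hE.finrank_sup hU hEW, hE.finrank, hd]
    omega

/-- contraction is compatible with derived families -/
theorem der_up [FiniteDimensional F V] {T S : Finset (Submodule F V)} (hT : Fam P U k T)
    (hS : ∀ Q ∈ S, Der P U k T Q) (hE : Pt P U E) : ∀ Q ∈ up E S, Der P E k (up E T) Q := by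
  intro Q' hQ'
  obtain ⟨Q, hQ, hEQ, rfl⟩ := mem_up.1 hQ'
  obtain ⟨hd, G₁, hG₁, G₂, hG₂, hne, h1, h2, E', hE', hEQ', hE1, hE2⟩ := hS Q hQ
  obtain ⟨⟨hU1, hr1⟩, hd1⟩ := hT G₁ hG₁
  obtain ⟨⟨hU2, hr2⟩, hd2⟩ := hT G₂ hG₂
  have hUQ : U ≤ Q := hU1.trans h1
  have hn1 : ¬ E ≤ G₁ := fun h => hEQ (h.trans h1)
  have hn2 : ¬ E ≤ G₂ := fun h => hEQ (h.trans h2)
  -- modular law
  have key : ∀ G : Submodule F V, U ≤ G → G ≤ Q → (G ⊔ E) ⊓ Q = G := by
    intro G hUG hG
    rw [sup_inf_assoc_of_le E hG]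
    have h3 : E ⊓ Q ≤ U := by
      have h4 : U ≤ E ⊓ Q := le_inf hE.le hUQ
      have h5 : finrank F (E ⊓ Q : Submodule F V) ≤ finrank F U := by
        have h6 : finrank F (E ⊓ Q : Submodule F V) < finrank F E := by
          apply Submodule.finrank_lt_finrank_of_lt
          refine lt_of_le_of_ne inf_le_left ?_
          intro h
          exact hEQ (inf_eq_left.1 h)
        have h7 := hE.finrank
        omega
      exact (Submodule.eq_of_le_of_finrank_le h4 h5).symm.le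
    exact sup_eq_left.2 (h3.trans hUG)
  refine ⟨?_, G₁ ⊔ E, mem_up.2 ⟨G₁, hG₁, hn1, rfl⟩, G₂ ⊔ E, mem_up.2 ⟨G₂, hG₂, hn2, rfl⟩, ?_,
    sup_le_sup_right h1 E, sup_le_sup_right h2 E, E ⊔ E', ?_, ?_, ?_, ?_⟩
  · rw [hE.finrank_sup hUQ hEQ, hE.finrank, hd]
    omega
  · intro h
    apply hne
    rw [← key G₁ hU1 h1, h, key G₂ hU2 h2]
  · obtain ⟨p, hp, hpU, rfl⟩ := hE'
    refine ⟨p, hp, ?_, ?_⟩
    · intro hpE
      have hpQ : p ∈ Q := hEQ' (le_sup_right (a := U) (subset_span rfl))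
      have h3 := key U le_rfl hUQ
      have h4 : p ∈ (U ⊔ E) ⊓ Q := ⟨(le_sup_right : E ≤ _) hpE, hpQ⟩
      rw [h3] at h4
      exact hpU h4
    · rw [← sup_assoc, sup_eq_left.2 hE.le]
  · exact sup_le le_sup_right (hEQ'.trans le_sup_left)
  · intro h
    apply hE1
    have h3 : E' ≤ (G₁ ⊔ E) ⊓ Q := le_inf (le_sup_right.trans h) hEQ'
    rwa [key G₁ hU1 h1] at h3
  · intro h
    apply hE2
    have h3 : E' ≤ (G₂ ⊔ E) ⊓ Q := le_inf (le_sup_right.trans h) hEQ'
    rwa [key G₂ hU2 h2] at h3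

end Pool.Agent.GW
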