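import Pool.Agent.GW.Cnt

/-!
# GW-LossGe: contraction of points loses many members of a family with many derived flats

PLAN.
`gain_one`: for a fixed `E`: `T' = {W ∈ T | ¬ E ≤ W}`, `T'.card = ∑ Q ∈ up E T, card (fibre of Q)` (`Finset.card_eq_sum_card_image` / `Finset.card_eq_sum_card_fiberwise`), every fibre has `≥ 1` element and
`≥ 2` if `Q ∈ S`, `E ≤ Q`, and there are `G₁ ≠ G₂` in `T` below `Q`, not above `E` (`Pt.sup_eq`: `G₁ ⊔ E = Q = G₂ ⊔ E`; so `Q ∈ up E T`).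
`loss_ge`: sum over `E ∈ pts P U`; exchange the sums; for `Q ∈ S` there is at least one point `E` as in the condition (definition of `Der`).
-/

set_option autoImplicit false

namespace Pool.Agent.GW

open Submodule Module

variable {F V : Type} [Field F] [Finite F] [AddCommGroup V] [Module F V] [FiniteDimensional F V]
  {P : Set V} {U E Q : Submodule F V} {k : ℕ} {T S : Finset (Submodule F V)}

/-- `E` shows that `Q` is derived -/
def Wit (T : Finset (Submodule F V)) (Q E : Submodule F V) : Prop :=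
  E ≤ Q ∧ ∃ G₁ ∈ T, ∃ G₂ ∈ T, G₁ ≠ G₂ ∧ G₁ ≤ Q ∧ G₂ ≤ Q ∧ ¬ E ≤ G₁ ∧ ¬ E ≤ G₂

open Classical in
omit [Finite F] in
theorem gain_one (hT : Fam P U k T) (hS : ∀ Q ∈ S, Der P U k T Q) (hE : Pt P U E) :
    (up E T).card + (S.filter fun Q => Wit T Q E).card ≤ T.card := by
  have h1 : (T.filter fun W => ¬ E ≤ W).card = ∑ Q ∈ up E T,
      ((T.filter fun W => ¬ E ≤ W).filter fun W => W ⊔ E = Q).card := by
    refine Finset.card_eq_sum_card_fiberwise fun W hW => ?_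
    have hW' := Finset.mem_filter.1 hW
    exact mem_up.2 ⟨W, hW'.1, hW'.2, rfl⟩
  have hsup : ∀ Q ∈ S, Wit T Q E → ∃ G₁ ∈ T, ∃ G₂ ∈ T, G₁ ≠ G₂ ∧ ¬ E ≤ G₁ ∧ ¬ E ≤ G₂ ∧
      G₁ ⊔ E = Q ∧ G₂ ⊔ E = Q := by
    rintro Q hQ ⟨hEQ, G₁, hG₁, G₂, hG₂, hne, h1, h2, hE1, hE2⟩
    have hd := (hS Q hQ).1
    obtain ⟨⟨hU1, -⟩, hd1⟩ := hT G₁ hG₁
    obtain ⟨⟨hU2, -⟩, hd2⟩ := hT G₂ hG₂
    exact ⟨G₁, hG₁, G₂, hG₂, hne, hE1, hE2, hE.sup_eq hU1 hE1 h1 hEQ (by omega),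
      hE.sup_eq hU2 hE2 h2 hEQ (by omega)⟩
  have h2 : ∀ Q ∈ up E T, (1 + if (Q ∈ S ∧ Wit T Q E) then 1 else 0) ≤
      ((T.filter fun W => ¬ E ≤ W).filter fun W => W ⊔ E = Q).card := by
    intro Q hQ
    split_ifs with hc
    · obtain ⟨G₁, hG₁, G₂, hG₂, hne, hE1, hE2, hs1, hs2⟩ := hsup Q hc.1 hc.2
      have h3 : 1 < ((T.filter fun W => ¬ E ≤ W).filter fun W => W ⊔ E = Q).card := by
        rw [Finset.one_lt_card]
        exact ⟨G₁, Finset.mem_filter.2 ⟨Finset.mem_filter.2 ⟨hG₁, hE1⟩, hs1⟩, G₂,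
          Finset.mem_filter.2 ⟨Finset.mem_filter.2 ⟨hG₂, hE2⟩, hs2⟩, hne⟩
      omega
    · obtain ⟨W, hW, hEW, hWQ⟩ := mem_up.1 hQ
      rw [add_zero]
      exact Finset.card_pos.2 ⟨W, Finset.mem_filter.2 ⟨Finset.mem_filter.2 ⟨hW, hEW⟩, hWQ⟩⟩
  have h3 : (up E T).card + (S.filter fun Q => Wit T Q E).card ≤
      (T.filter fun W => ¬ E ≤ W).card := by
    rw [h1]
    calc (up E T).card + (S.filter fun Q => Wit T Q E).card
        ≤ (up E T).card + ((up E T).filter fun Q => Q ∈ S ∧ Wit T Q E).card := by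
          refine Nat.add_le_add_left (Finset.card_le_card ?_) _
          intro Q hQ
          have hQ' := Finset.mem_filter.1 hQ
          obtain ⟨G₁, hG₁, -, -, -, hE1, -, hs1, -⟩ := hsup Q hQ'.1 hQ'.2
          exact Finset.mem_filter.2 ⟨mem_up.2 ⟨G₁, hG₁, hE1, hs1⟩, hQ'⟩
      _ = ∑ Q ∈ up E T, (1 + if (Q ∈ S ∧ Wit T Q E) then 1 else 0) := by
          rw [Finset.sum_add_distrib, Finset.sum_const, smul_eq_mul, mul_one,
            Finset.card_filter]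
      _ ≤ _ := Finset.sum_le_sum h2
  exact h3.trans (Finset.card_filter_le _ _)

theorem loss_ge (hT : Fam P U k T) (hS : ∀ Q ∈ S, Der P U k T Q) :
    S.card + ∑ E ∈ pts P U, (up E T).card ≤ (pts P U).card * T.card := by
  classical
  have h1 : ∑ E ∈ pts P U, ((up E T).card + (S.filter fun Q => Wit T Q E).card) ≤
      ∑ E ∈ pts P U, T.card :=
    Finset.sum_le_sum fun E hE => gain_one hT hS (mem_pts.1 hE)
  rw [Finset.sum_const, smul_eq_mul, Finset.sum_add_distrib] at h1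
  have h2 : ∑ E ∈ pts P U, (S.filter fun Q => Wit T Q E).card =
      ∑ Q ∈ S, ((pts P U).filter fun E => Wit T Q E).card := by
    simp only [Finset.card_filter]
    exact Finset.sum_comm
  have h3 : S.card ≤ ∑ Q ∈ S, ((pts P U).filter fun E => Wit T Q E).card := by
    rw [Finset.card_eq_sum_ones]
    refine Finset.sum_le_sum fun Q hQ => ?_
    obtain ⟨-, G₁, hG₁, G₂, hG₂, hne, h1, h2, E, hE, hEQ, hE1, hE2⟩ := hS Q hQ
    exact Finset.card_pos.2 ⟨E, Finset.mem_filter.2 ⟨mem_pts.2 hE,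
      hEQ, G₁, hG₁, G₂, hG₂, hne, h1, h2, hE1, hE2⟩⟩
  omega

end Pool.Agent.GW
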