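import Pool.Agent.GW.Cnt

/-!
# GW-LossLe: contraction of points loses few members of a family of round flats, on average

PLAN.
`fiber_der`: two different members `W₁ ≠ W₂` of `T` with `W₁ ⊔ E = W₂ ⊔ E = Q`, `E` not below them: `Q` is in `Der P U k T` (`Pt.finrank_sup`, the point is `E` itself).
`loss_one`: for a fixed `E`: `T = {W | E ≤ W} ∪ T'`, `T' = {W ∈ T | ¬ E ≤ W}`, `T'.card = ∑ Q ∈ up E T, card (fibre of Q)` (`Finset.card_eq_sum_card_image` or
`Finset.card_eq_sum_card_fiberwise`), a fibre has at most `Nn F (k+1)` elements (`card_interval`: its members are between `U` and `Q`, `finrank Q = finrank U + k + 1`), and at most one element unless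
`Q ∈ ders P U k T`, `E ≤ Q` (`fiber_der`): fibre card `≤ 1 + (if Q ∈ ders ∧ E ≤ Q then Nn F (k+1) else 0)`.
`loss_le`: sum over `E ∈ pts P U`, exchange the sums (`Finset.sum_comm'` / `Finset.sum_card_bipartiteAbove_eq_sum_card_bipartiteBelow`): `∑_E #{W ∈ T | E ≤ W} = ∑_{W ∈ T} #{E ∈ pts | E ≤ W} ≤ T.card * Nn F k`
(`card_interval`, points `E ≤ W` are between `U` and `W`), `∑_E #{Q ∈ ders | E ≤ Q} ≤ ders.card * Nn F (k+1) ≤ μ * T.card * Nn F (k+1)` (`Bd` with `S = ders P U k T`).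
-/

set_option autoImplicit false

namespace Pool.Agent.GW

open Submodule Module

variable {F V : Type} [Field F] [Finite F] [AddCommGroup V] [Module F V] [FiniteDimensional F V]
  {P : Set V} {U E Q : Submodule F V} {k μ : ℕ} {T : Finset (Submodule F V)}

omit [Finite F] in
theorem fiber_der (hT : Fam P U k T) (hE : Pt P U E) {W₁ W₂ : Submodule F V} (h1 : W₁ ∈ T)
    (h2 : W₂ ∈ T) (hne : W₁ ≠ W₂) (hE1 : ¬ E ≤ W₁) (hE2 : ¬ E ≤ W₂) (hQ1 : W₁ ⊔ E = Q)
    (hQ2 : W₂ ⊔ E = Q) : Der P U k T Q := by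
  obtain ⟨⟨hU1, -⟩, hd1⟩ := hT W₁ h1
  have hd := hE.finrank_sup hU1 hE1
  rw [hQ1, hd1] at hd
  refine ⟨by omega, W₁, h1, W₂, h2, hne, ?_, ?_, E, hE, ?_, hE1, hE2⟩
  · rw [← hQ1]; exact le_sup_left
  · rw [← hQ2]; exact le_sup_left
  · rw [← hQ1]; exact le_sup_right

open Classical in
theorem loss_one (hT : Fam P U k T) (hE : Pt P U E) :
    T.card ≤ (up E T).card + (T.filter fun W => E ≤ W).card +
      Nn F (k + 1) * ((ders P U k T).filter fun Q => E ≤ Q).card := by
  have h0 : T.card = (T.filter fun W => E ≤ W).card + (T.filter fun W => ¬ E ≤ W).card :=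
    (Finset.card_filter_add_card_filter_not _).symm
  have h1 : (T.filter fun W => ¬ E ≤ W).card = ∑ Q ∈ up E T,
      ((T.filter fun W => ¬ E ≤ W).filter fun W => W ⊔ E = Q).card := by
    refine Finset.card_eq_sum_card_fiberwise fun W hW => ?_
    have hW' := Finset.mem_filter.1 hW
    exact mem_up.2 ⟨W, hW'.1, hW'.2, rfl⟩
  have h2 : ∀ Q ∈ up E T, ((T.filter fun W => ¬ E ≤ W).filter fun W => W ⊔ E = Q).card ≤
      1 + if (Q ∈ ders P U k T ∧ E ≤ Q) then Nn F (k + 1) else 0 := by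
    intro Q hQ
    split_ifs with hc
    · refine le_trans (card_interval (U := U) (Q := Q) (k := k + 1) (hE.le.trans hc.2) ?_ _ ?_)
        (Nat.le_add_left _ _)
      · exact (mem_ders.1 hc.1).1.le
      · intro W hW
        obtain ⟨hW1, hW2⟩ := Finset.mem_filter.1 hW
        exact ⟨(hT W (Finset.mem_filter.1 hW1).1).1.1, by rw [← hW2]; exact le_sup_left⟩
    · rw [add_zero, Finset.card_le_one]
      intro W₁ hW₁ W₂ hW₂
      by_contra hne
      apply hc
      obtain ⟨a1, a2⟩ := Finset.mem_filter.1 hW₁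
      obtain ⟨b1, b2⟩ := Finset.mem_filter.1 hW₂
      obtain ⟨a1, a3⟩ := Finset.mem_filter.1 a1
      obtain ⟨b1, b3⟩ := Finset.mem_filter.1 b1
      exact ⟨mem_ders.2 (fiber_der hT hE a1 b1 hne a3 b3 a2 b2), by
        rw [← a2]; exact le_sup_right⟩
  have h3 : (T.filter fun W => ¬ E ≤ W).card ≤ (up E T).card +
      Nn F (k + 1) * ((ders P U k T).filter fun Q => E ≤ Q).card := by
    rw [h1]
    calc ∑ Q ∈ up E T, ((T.filter fun W => ¬ E ≤ W).filter fun W => W ⊔ E = Q).card
        ≤ ∑ Q ∈ up E T, (1 + if (Q ∈ ders P U k T ∧ E ≤ Q) then Nn F (k + 1) else 0) :=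
          Finset.sum_le_sum h2
      _ = (up E T).card + ((up E T).filter fun Q => Q ∈ ders P U k T ∧ E ≤ Q).card *
          Nn F (k + 1) := by
          rw [Finset.sum_add_distrib, Finset.sum_const, smul_eq_mul, mul_one,
            ← Finset.sum_filter, Finset.sum_const, smul_eq_mul]
      _ ≤ (up E T).card + Nn F (k + 1) * ((ders P U k T).filter fun Q => E ≤ Q).card := by
          rw [mul_comm]
          refine Nat.add_le_add_left (Nat.mul_le_mul_left _ (Finset.card_le_card ?_)) _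
          intro Q hQ
          have hQ' := (Finset.mem_filter.1 hQ).2
          exact Finset.mem_filter.2 hQ'
  omega

theorem loss_le (hU : Fl P U) (hB : Bd F P k μ) (hT : Fam P U k T) :
    (pts P U).card * T.card ≤ ∑ E ∈ pts P U, (up E T).card +
      (Nn F k + Nn F (k + 1) * Nn F (k + 1) * μ) * T.card := by
  classical
  have h1 : ∑ E ∈ pts P U, T.card ≤ ∑ E ∈ pts P U, ((up E T).card +
      (T.filter fun W => E ≤ W).card +
      Nn F (k + 1) * ((ders P U k T).filter fun Q => E ≤ Q).card) :=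
    Finset.sum_le_sum fun E hE => loss_one hT (mem_pts.1 hE)
  rw [Finset.sum_const, smul_eq_mul, Finset.sum_add_distrib, Finset.sum_add_distrib,
    ← Finset.mul_sum] at h1
  have hsw : ∀ R : Finset (Submodule F V), ∀ j : ℕ, (∀ W ∈ R, U ≤ W ∧ finrank F W ≤ finrank F U + j) →
      ∑ E ∈ pts P U, (R.filter fun W => E ≤ W).card ≤ R.card * Nn F j := by
    intro R j hR
    have h2 : ∑ E ∈ pts P U, (R.filter fun W => E ≤ W).card =
        ∑ W ∈ R, ((pts P U).filter fun E => E ≤ W).card := by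
      simp only [Finset.card_filter]
      exact Finset.sum_comm
    rw [h2, ← smul_eq_mul, ← Finset.sum_const]
    refine Finset.sum_le_sum fun W hW => ?_
    refine card_interval (hR W hW).1 (hR W hW).2 _ fun E hE => ?_
    obtain ⟨hE1, hE2⟩ := Finset.mem_filter.1 hE
    exact ⟨(mem_pts.1 hE1).le, hE2⟩
  have h3 := hsw T k fun W hW => ⟨(hT W hW).1.1, (hT W hW).2.le⟩
  have h4 := hsw (ders P U k T) (k + 1) fun Q hQ => by
    obtain ⟨hd, G₁, hG₁, -, -, -, hle, -⟩ := mem_ders.1 hQ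
    exact ⟨(hT G₁ hG₁).1.1.trans hle, hd.le⟩
  have h5 := hB U hU T (ders P U k T) hT fun Q hQ => mem_ders.1 hQ
  have h6 : Nn F (k + 1) * ∑ E ∈ pts P U, ((ders P U k T).filter fun Q => E ≤ Q).card ≤
      Nn F (k + 1) * (μ * T.card * Nn F (k + 1)) :=
    Nat.mul_le_mul_left _ (h4.trans (Nat.mul_le_mul_right _ h5))
  calc (pts P U).card * T.card ≤ _ := h1
    _ ≤ ∑ E ∈ pts P U, (up E T).card + T.card * Nn F k +
        Nn F (k + 1) * (μ * T.card * Nn F (k + 1)) := by
        exact Nat.add_le_add (Nat.add_le_add_left h3 _) h6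
    _ = ∑ E ∈ pts P U, (up E T).card +
      (Nn F k + Nn F (k + 1) * Nn F (k + 1) * μ) * T.card := by ring

end Pool.Agent.GW
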