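import Pool.Agent.GW.LossLe
import Pool.Agent.GW.LossGe
import Pool.Agent.GW.BookC

/-!
# GW-Main: the Geelen-Whittle theorem: dense represented matroids have clique minors
-/

set_option autoImplicit false

namespace Pool.Agent.GW

open Submodule Module

variable {F V : Type} [Field F] [Finite F] [AddCommGroup V] [Module F V] [FiniteDimensional F V]
  {P : Set V}

/-- the constant of one step -/
noncomputable def cS (F : Type) (k μ : ℕ) : ℕ := Nn F k + Nn F (k + 1) * Nn F (k + 1) * μ

theorem step {k μ : ℕ} (hB : Bd F P (k + 1) μ) : Bd F P k (cS F (k + 1) μ) := by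
  have main : ∀ n : ℕ, ∀ U : Submodule F V, Fl P U → finrank F V ≤ finrank F U + n →
      ∀ T S : Finset (Submodule F V), Fam P U k T → (∀ Q ∈ S, Der P U k T Q) →
      S.card ≤ cS F (k + 1) μ * T.card := by
    intro n
    induction n with
    | zero =>
      intro U hU hn T S hT hS
      rcases S.eq_empty_or_nonempty with h | ⟨Q, hQ⟩
      · rw [h]; simp
      · exfalso
        have h1 := (hS Q hQ).1
        have h2 := Submodule.finrank_le Q
        omega
    | succ n ih =>
      intro U hU hn T S hT hS
      rcases (pts P U).eq_empty_or_nonempty with h | hne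
      · rcases S.eq_empty_or_nonempty with h' | ⟨Q, hQ⟩
        · rw [h']; simp
        · exfalso
          obtain ⟨-, G₁, -, G₂, -, -, -, -, E, hE, -⟩ := hS Q hQ
          have h1 : E ∈ pts P U := mem_pts.2 hE
          rw [h] at h1
          exact absurd h1 (Finset.notMem_empty E)
      · have hSf : Fam P U (k + 1) S := der_fam hT hS
        have h1 := loss_le hU hB hSf
        have h2 := loss_ge hT hS
        have h3 : ∑ E ∈ pts P U, (up E S).card ≤
            cS F (k + 1) μ * ∑ E ∈ pts P U, (up E T).card := by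
          rw [Finset.mul_sum]
          refine Finset.sum_le_sum fun E hE => ?_
          have hE' := mem_pts.1 hE
          refine ih E (hE'.fl hU) ?_ _ _ (fam_up hT hE') (der_up hT hS hE')
          have h4 := hE'.finrank
          omega
        have hpos : 0 < (pts P U).card := Finset.card_pos.2 hne
        have h5 : (pts P U).card * S.card ≤ (pts P U).card * (cS F (k + 1) μ * T.card) := by
          have h6 : Nn F (k + 1) + Nn F (k + 1 + 1) * Nn F (k + 1 + 1) * μ = cS F (k + 1) μ := rfl
          rw [h6] at h1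
          have h7 : cS F (k + 1) μ * (S.card + ∑ E ∈ pts P U, (up E T).card) ≤
              cS F (k + 1) μ * ((pts P U).card * T.card) := Nat.mul_le_mul_left _ h2
          nlinarith
        exact Nat.le_of_mul_le_mul_left h5 hpos
  intro U hU T S hT hS
  exact main (finrank F V) U hU (by omega) T S hT hS

theorem chain (F : Type) [Field F] [Finite F] (k : ℕ) : ∀ μ : ℕ, ∃ μ' : ℕ,
    ∀ (V : Type) [AddCommGroup V] [Module F V] [FiniteDimensional F V] (P : Set V),
    Bd F P (k + 1) μ → Bd F P 1 μ' := by
  induction k with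
  | zero =>
    intro μ
    exact ⟨μ, fun V _ _ _ P h => h⟩
  | succ k ih =>
    intro μ
    obtain ⟨μ', h⟩ := ih (cS F (k + 1 + 1) μ)
    exact ⟨μ', fun V _ _ _ P hB => h V P (step hB)⟩

theorem top {k : ℕ} (h : ¬ HasK F P k) : Bd F P k (muB F k) := by
  classical
  intro U hU T S hT hS
  have hSf : Fam P U (k + 1) S := der_fam hT hS
  have h1 : S ⊆ T.biUnion fun W => S.filter fun Q => W ≤ Q := by
    intro Q hQ
    obtain ⟨-, G₁, hG₁, -, -, -, h2, -⟩ := hS Q hQ
    exact Finset.mem_biUnion.2 ⟨G₁, hG₁, Finset.mem_filter.2 ⟨hQ, h2⟩⟩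
  have h2 : ∀ W ∈ T, (S.filter fun Q => W ≤ Q).card ≤ muB F k := by
    intro W hW
    by_contra hc
    push Not at hc
    apply h
    obtain ⟨⟨hUW, -⟩, hd⟩ := hT W hW
    refine book hU hUW hd _ (fun Q hQ => ?_) hc
    obtain ⟨hQS, hWQ⟩ := Finset.mem_filter.1 hQ
    exact ⟨(hSf Q hQS).1, hWQ, (hSf Q hQS).2⟩
  calc S.card ≤ (T.biUnion fun W => S.filter fun Q => W ≤ Q).card := Finset.card_le_card h1
    _ ≤ ∑ W ∈ T, (S.filter fun Q => W ≤ Q).card := Finset.card_biUnion_le
    _ ≤ ∑ W ∈ T, muB F k := Finset.sum_le_sum h2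
    _ = muB F k * T.card := by rw [Finset.sum_const, smul_eq_mul, mul_comm]

omit [Finite F] in
theorem Pt.round {U E : Submodule F V} (h : Pt P U E) : Rd P U E := by
  have hle := h.le
  obtain ⟨p, hp, hpU, rfl⟩ := h
  refine ⟨hle, fun A B hA hB hP => ?_⟩
  have hpE : p ∈ U ⊔ span F {p} := le_sup_right (a := U) (subset_span rfl)
  rcases hP p hp hpE with h | h
  · left
    refine sup_le hA (span_le.2 ?_)
    rintro x rfl
    exact h
  · right
    refine sup_le hB (span_le.2 ?_)
    rintro x rfl
    exact h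

theorem up_pts {U E : Submodule F V} (hE : Pt P U E) : up E (pts P U) = pts P E := by
  ext W'
  rw [mem_up, mem_pts]
  constructor
  · rintro ⟨W, hW, hEW, rfl⟩
    rw [mem_pts] at hW
    have hdW := hW.finrank
    have hdE := hE.finrank
    have hUW := hW.le
    obtain ⟨p, hp, hpU, rfl⟩ := hW
    refine ⟨p, hp, ?_, ?_⟩
    · intro hpE
      apply hEW
      have h1 : U ⊔ span F {p} ≤ E := by
        refine sup_le hE.le (span_le.2 ?_)
        rintro x rfl
        exact hpE
      exact (Submodule.eq_of_le_of_finrank_eq h1 (hdW.trans hdE.symm)).symm.le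
    · rw [sup_comm, ← sup_assoc, sup_eq_left.2 hE.le]
  · rintro ⟨p, hp, hpE, rfl⟩
    have hpU : p ∉ U := fun h => hpE (hE.le h)
    have hW : Pt P U (U ⊔ span F {p}) := ⟨p, hp, hpU, rfl⟩
    refine ⟨U ⊔ span F {p}, mem_pts.2 hW, ?_, ?_⟩
    · intro h
      apply hpE
      have h1 : E = U ⊔ span F {p} :=
        Submodule.eq_of_le_of_finrank_eq h (hE.finrank.trans hW.finrank.symm)
      rw [h1]
      exact le_sup_right (a := U) (subset_span rfl)
    · rw [sup_comm, ← sup_assoc, sup_eq_left.2 hE.le]

omit [Finite F] [FiniteDimensional F V] in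
theorem Fl.le_span {U : Submodule F V} (hU : Fl P U) : U ≤ span F P :=
  hU.trans (span_mono Set.inter_subset_left)

theorem density {μ : ℕ} (hB : Bd F P 1 μ) (n : ℕ) : ∀ U : Submodule F V, Fl P U →
    finrank F (span F P) ≤ finrank F U + n → (pts P U).card ≤ cS F 1 μ * n := by
  induction n with
  | zero =>
    intro U hU hn
    rcases (pts P U).eq_empty_or_nonempty with h | ⟨E, hE⟩
    · rw [h]; simp
    · exfalso
      have hE' := mem_pts.1 hE
      have h1 := Submodule.finrank_mono ((hE'.fl hU).le_span)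
      have h2 := hE'.finrank
      omega
  | succ n ih =>
    intro U hU hn
    rcases (pts P U).eq_empty_or_nonempty with h | hne
    · rw [h]; simp
    · have hfam : Fam P U 1 (pts P U) := fun W hW =>
        ⟨(mem_pts.1 hW).round, (mem_pts.1 hW).finrank⟩
      have h1 := loss_le hU hB hfam
      have h2 : ∑ E ∈ pts P U, (up E (pts P U)).card ≤ (pts P U).card * (cS F 1 μ * n) := by
        calc ∑ E ∈ pts P U, (up E (pts P U)).card ≤ ∑ E ∈ pts P U, cS F 1 μ * n := by
              refine Finset.sum_le_sum fun E hE => ?_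
              have hE' := mem_pts.1 hE
              rw [up_pts hE']
              refine ih E (hE'.fl hU) ?_
              have h3 := hE'.finrank
              omega
          _ = (pts P U).card * (cS F 1 μ * n) := by rw [Finset.sum_const, smul_eq_mul]
      have hpos : 0 < (pts P U).card := Finset.card_pos.2 hne
      have h6 : Nn F 1 + Nn F (1 + 1) * Nn F (1 + 1) * μ = cS F 1 μ := rfl
      rw [h6] at h1
      have h7 : (pts P U).card * (pts P U).card ≤ (pts P U).card * (cS F 1 μ * (n + 1)) := by
        nlinarith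
      exact Nat.le_of_mul_le_mul_left h7 hpos

/-- **Geelen-Whittle**: for a finite field `F` and `k ≥ 1` there is a constant `c` such that every
`F`-represented matroid without a minor `M(K_{k+1})` has at most `c * rank` points. -/
theorem geelen_whittle (F : Type) [Field F] [Finite F] (k : ℕ) : ∃ c : ℕ,
    ∀ (V : Type) [AddCommGroup V] [Module F V] [FiniteDimensional F V] (P : Set V),
    ¬ HasK F P (k + 1) → (pts P (⊥ : Submodule F V)).card ≤ c * finrank F (span F P) := by
  obtain ⟨μ, hμ⟩ := chain F k (muB F (k + 1))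
  refine ⟨cS F 1 μ, fun V _ _ _ P h => ?_⟩
  refine density (hμ V P (top h)) _ ⊥ bot_le ?_
  rw [finrank_bot, zero_add]

/-- the version for a finite set of pairwise non-parallel nonzero vectors -/
theorem geelen_whittle' (F : Type) [Field F] [Finite F] (k : ℕ) : ∃ c : ℕ,
    ∀ (V : Type) [AddCommGroup V] [Module F V] [FiniteDimensional F V] (P : Finset V),
    (0 : V) ∉ P → (∀ p ∈ P, ∀ p' ∈ P, p ∈ span F {p'} → p = p') →
    ¬ HasK F (P : Set V) (k + 1) → P.card ≤ c * finrank F (span F (P : Set V)) := by
  obtain ⟨c, hc⟩ := geelen_whittle F k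
  refine ⟨c, fun V _ _ _ P h0 hP h => ?_⟩
  refine le_trans ?_ (hc V (P : Set V) h)
  refine Finset.card_le_card_of_injOn (fun p => (⊥ : Submodule F V) ⊔ span F {p}) ?_ ?_
  · intro p hp
    refine mem_pts.2 ⟨p, hp, ?_, rfl⟩
    intro h1
    rw [(Submodule.mem_bot F).1 h1] at hp
    exact h0 hp
  · intro p hp p' hp' hpp
    apply hP p hp p' hp'
    have h1 : (⊥ : Submodule F V) ⊔ span F {p} = ⊥ ⊔ span F {p'} := hpp
    rw [bot_sup_eq, bot_sup_eq] at h1
    rw [← h1]
    exact subset_span rfl

end Pool.Agent.GW
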